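import Pool.Agent.Q138.PS.UB
import Pool.Agent.Q138.PS.UC
import Pool.Agent.Results.MP_a247fa_nt.CriticalPoints

/-!
# The critical points of Chamberland's map next to the numbers `⌊α P(n)⌋`: a positive proportion is attracted to `{1, 2}`

Let `q ≥ 2`. There is an absolute `δ > 0` such that outside a set of real numbers of Hausdorff dimension at most
`q / (q + 1 / (q 2 ^ (q - 1)))` (that is `8 / 9` for `q = 2`) every `α > 0` has the following property, for ALL integral polynomials
`P` of degree `q` with positive leading coefficient and coefficients of size at most `N ^ η`: for at least `δ N` of the `n ≤ N`,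
with `x = ⌊α P(n)⌋`, all critical points of `f` in `(x - 1 / 2, x + 1 / 2)`, of which there is at least one, and all points of
`[x - 1 / (3 x), x + 1 / (3 x)]` are attracted to the cycle `{1, 2}`.
-/

set_option autoImplicit false

namespace Pool.Agent.Results.MP_a247fa_nt.AttractedAlongRealMultiples

open Finset Filter Topology
open Pool.Agent.Q138.PS
open Pool.Agent.Results.MP_a247fa_nt.CriticalPoints (f Attracted)

/-- `f` has a critical point in `(x - 1 / 2, x + 1 / 2)`, and all critical points of `f` there and all points of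
`[x - 1 / (3 x), x + 1 / (3 x)]` are attracted to the cycle `{1, 2}` -/
def Good (x : ℕ) : Prop :=
  (∃ c : ℝ, |c - x| < 1 / 2 ∧ deriv f c = 0) ∧
  (∀ c : ℝ, |c - x| < 1 / 2 → deriv f c = 0 → Attracted c) ∧
  ∀ z : ℝ, |z - x| ≤ 1 / (3 * x) → Attracted z

open Classical in
/-- the number of the `1 ≤ n ≤ N` for which `⌊α P(n)⌋` is `Good` -/
noncomputable def count (α : ℝ) (P : Polynomial ℤ) (N : ℕ) : ℕ :=
  ((Icc 1 N).filter fun n : ℕ => Good ⌊α * ((P.eval (n : ℤ) : ℤ) : ℝ)⌋₊).card

theorem count_eq (α : ℝ) (P : Polynomial ℤ) (N : ℕ) : (count α P N : ℝ) = cnP Good α P N := by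
  classical
  unfold count cnP cn
  refine congrArg _ (congrArg _ ?_)
  ext n
  simp only [mem_filter]

/-- **Theorem.** There is `δ > 0` such that for each `q ≥ 2` there is a set `E` of Hausdorff dimension at most
`q / (q + 1 / (q 2 ^ (q - 1)))` such that for each `α > 0` outside `E` there is `η > 0` with: for all large `N` and uniformly in
`P`, at least `δ N` of the numbers `⌊α P(n)⌋`, `n ≤ N`, are `Good`. -/
theorem result :
    ∃ δ : ℝ, 0 < δ ∧ ∀ q : ℕ, 2 ≤ q →
    ∃ E : Set ℝ, dimH E ≤ ENNReal.ofReal (q / (q + 1 / ((q : ℝ) * 2 ^ (q - 1)))) ∧ ∀ α : ℝ, 0 < α → α ∉ E →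
      ∃ η : ℝ, 0 < η ∧ ∀ᶠ N : ℕ in atTop, ∀ P : Polynomial ℤ, P.natDegree = q → 0 < P.leadingCoeff →
        (∀ j, |((P.coeff j : ℤ) : ℝ)| ≤ (N : ℝ) ^ η) → δ * N ≤ (count α P N : ℝ) := by
  classical
  obtain ⟨δ, hδ, h⟩ := Pool.Agent.Results.MP_a247fa_nt.CriticalPoints.result
  refine ⟨δ / 2, by positivity, fun q hq => ?_⟩
  have hT : ∀ y : ℕ, cn (fun _ => True) y = y := by
    intro y
    unfold cn
    simp
  obtain ⟨E, hE, hg⟩ := low_nat (ι := Unit) q hq (fun _ => Good) (fun _ _ => True) (fun _ => δ) (by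
    intro _ η hη
    filter_upwards [eventually_ge_atTop 1] with y hy
    rw [hT]
    have h1 : (1 : ℝ) ≤ y := by exact_mod_cast hy
    calc (y : ℝ) ^ (1 - η) ≤ (y : ℝ) ^ (1 : ℝ) := Real.rpow_le_rpow_of_exponent_le h1 (by linarith)
      _ = y := Real.rpow_one _) (by
    intro _ ε hε
    filter_upwards [tendsto_natCast_atTop_atTop.eventually h] with y hy
    rw [hT, cn_ncard]
    have h1 : (δ - ε) * (y : ℝ) ≤ δ * y := by
      have : (0 : ℝ) ≤ y := Nat.cast_nonneg _
      nlinarith
    refine h1.trans (hy.trans ?_)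
    refine Nat.cast_le.2 (Set.ncard_le_ncard ?_ ((Set.finite_Iic y).subset fun n hn => hn.2.1))
    rintro n ⟨g1, g2, g3⟩
    exact ⟨g1, by exact_mod_cast g2, g3⟩)
  refine ⟨E, hE, fun α hα hαE => ?_⟩
  obtain ⟨η, hη, hN⟩ := hg α hα hαE ()
  refine ⟨η, hη, ?_⟩
  filter_upwards [hN (δ / 2) (by positivity)] with N g P hdeg hlead hco
  have k := (g P hdeg hlead hco).1
  have hT' : cnP (fun _ => True) α P N = N := by
    unfold cnP
    exact hT N
  rw [hT'] at k
  rw [count_eq]
  refine le_trans (le_of_eq ?_) k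
  ring

end Pool.Agent.Results.MP_a247fa_nt.AttractedAlongRealMultiples
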