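import Pool.Agent.Q138.PS.UG
import Pool.Agent.Results.MP_a247fa_nt.AlmostBoundedCriticalOrbits

/-!
# The critical points of Chamberland's map next to the numbers `⌊α P(n)⌋`

Let `q ≥ 2`. Outside a set of real numbers of Hausdorff dimension at most `q / (q + 1 / (q 2 ^ (q - 1)))` (that is
`8 / 9` for `q = 2`) every `α > 0` has the following property, for ALL integral polynomials `P` of degree `q` with positive
leading coefficient and coefficients of size at most `N ^ η`, and for all `1 ≤ y ≤ N ^ η`: for all but `C N / y ^ (1 / 20)` of the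
`n ≤ N` the orbit under Chamberland's map `f` of the critical point next to `⌊α P(n)⌋` comes below `y + 5 / 18`, and it is not
attracted by an attracting cycle that attracts no point of the intervals `J m`, `m ≤ y`.
-/

set_option autoImplicit false

namespace Pool.Agent.Results.MP_a247fa_nt.CriticalOrbitsAlongRealMultiples

open Finset Filter Topology
open Pool.Agent.Q138.PS
open Pool.Agent.H934R2.Ch (f T AttrPt Attracts)
open Pool.Agent.Results.MP_a247fa_nt.AlmostBoundedCriticalOrbits (J)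

open Classical in
/-- the number of the `1 ≤ n ≤ N` for which `⌊α P(n)⌋` has the property `Z` -/
noncomputable def count (Z : ℕ → Prop) (α : ℝ) (P : Polynomial ℤ) (N : ℕ) : ℕ :=
  ((Icc 1 N).filter fun n : ℕ => Z ⌊α * ((P.eval (n : ℤ) : ℤ) : ℝ)⌋₊).card

/-- the interval `J x = [x, x + 5 / (6 (2 x + 1))]` is carried by no iterate of `f` into some `J m`, `m ≤ y` -/
def Stray (y x : ℕ) : Prop := ¬ ∃ m k : ℕ, 1 ≤ m ∧ m ≤ y ∧ ∀ z ∈ J x, f^[k] z ∈ J m

/-- `x` is odd and the orbit of the critical point of `f` in `(x, x + 1 / 2)` stays above `y + 5 / 18` -/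
def Above (y x : ℕ) : Prop :=
  x % 2 = 1 ∧ ∃ z : ℝ, (x : ℝ) < z ∧ z < x + 1 / 2 ∧ deriv f z = 0 ∧ ∀ k : ℕ, (y : ℝ) + 5 / 18 < f^[k] z

/-- `x` is odd and the critical point of `f` in `(x, x + 1 / 2)` is attracted by an attracting cycle that attracts no point of
the intervals `J m`, `m ≤ y` -/
def Strange (y x : ℕ) : Prop :=
  x % 2 = 1 ∧ ∃ z : ℝ, (x : ℝ) < z ∧ z < x + 1 / 2 ∧ deriv f z = 0 ∧
    ∃ w : ℝ, AttrPt w ∧ Attracts w z ∧ ∀ m : ℕ, 1 ≤ m → m ≤ y → ∀ v ∈ J m, ¬ Attracts w v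

/-- `x` is odd and the critical point of `f` in `(x, x + 1 / 2)` is attracted neither by `{1, 2}` nor by the cycle of `a` and
does not fall on a point of period two of `f` in `[1.02, 1.05]` -/
def Other (a : ℝ) (x : ℕ) : Prop :=
  x % 2 = 1 ∧ ∃ z : ℝ, (x : ℝ) < z ∧ z < x + 1 / 2 ∧ deriv f z = 0 ∧
    ¬ (Attracts 1 z ∨ Attracts a z ∨ ∃ K : ℕ, f^[K] z ∈ Set.Icc (1.02 : ℝ) 1.05 ∧ f^[K + 2] z = f^[K] z)

theorem count_eq (Z : ℕ → Prop) (α : ℝ) (P : Polynomial ℤ) (N : ℕ) : (count Z α P N : ℝ) = cnP Z α P N := by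
  classical
  unfold count cnP cn
  refine congrArg _ (congrArg _ ?_)
  ext n
  simp only [mem_filter]

theorem cn_le {Z : ℕ → Prop} {S : Set ℕ} {Y : ℕ} {B : ℝ} (h : (S.ncard : ℝ) ≤ B)
    (hS : ∀ n, 1 ≤ n → n ≤ Y → Z n → n ∈ S) (hfin : S.Finite) : cn Z Y ≤ B := by
  refine le_trans ?_ h
  rw [cn_ncard]
  refine Nat.cast_le.2 (Set.ncard_le_ncard ?_ hfin)
  rintro n ⟨h1, h2, h3⟩
  exact hS n h1 h2 h3

/-- **Theorem.** Let `q ≥ 2`. There is a set `F` of Hausdorff dimension at most `q / (q + 1 / (q 2 ^ (q - 1)))` such that for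
each `α > 0` outside `F` there are `C, η > 0` with, for all large `N`, uniformly in `P` and `1 ≤ y ≤ N ^ η`: at most
`C N / y ^ (1 / 20)` of the numbers `⌊α P(n)⌋`, `n ≤ N`, are (1) `Stray y`, (2) `Above y`, (3) `Strange y`, and, if the Collatz
orbits of all `m ≤ y` contain `1`, (4) `Other a`, `{a, f a}` being the known attracting cycle other than `{1, 2}`. -/
theorem result (q : ℕ) (hq : 2 ≤ q) :
    ∃ a : ℝ, a ∈ Set.Icc (1.19 : ℝ) 1.196 ∧ f (f a) = a ∧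
    ∃ F : Set ℝ, dimH F ≤ ENNReal.ofReal (q / (q + 1 / ((q : ℝ) * 2 ^ (q - 1)))) ∧ ∀ α : ℝ, 0 < α → α ∉ F →
      ∃ C η : ℝ, 0 < C ∧ 0 < η ∧ ∀ᶠ N : ℕ in atTop, ∀ P : Polynomial ℤ, P.natDegree = q → 0 < P.leadingCoeff →
        (∀ j, |((P.coeff j : ℤ) : ℝ)| ≤ (N : ℝ) ^ η) → ∀ y : ℕ, 1 ≤ y → (y : ℝ) ≤ (N : ℝ) ^ η →
          (count (Stray y) α P N : ℝ) ≤ C * N / (y : ℝ) ^ (1 / 20 : ℝ) ∧
          (count (Above y) α P N : ℝ) ≤ C * N / (y : ℝ) ^ (1 / 20 : ℝ) ∧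
          (count (Strange y) α P N : ℝ) ≤ C * N / (y : ℝ) ^ (1 / 20 : ℝ) ∧
          ((∀ m : ℕ, 1 ≤ m → m ≤ y → ∃ k : ℕ, T^[k] m = 1) →
            (count (Other a) α P N : ℝ) ≤ C * N / (y : ℝ) ^ (1 / 20 : ℝ)) := by
  classical
  obtain ⟨a, ha, haa, -, -, -, ⟨C, hC, hcount⟩, -⟩ := Pool.Agent.Results.MP_a247fa_nt.AlmostBoundedCriticalOrbits.result
  refine ⟨a, ha, haa, ?_⟩
  set X : Fin 4 → ℕ → ℕ → Prop := ![Stray, Above, Strange,
    fun y x => (∀ m : ℕ, 1 ≤ m → m ≤ y → ∃ k : ℕ, T^[k] m = 1) ∧ Other a x] with hX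
  have hb : ∀ i : Fin 4, ∀ Y y : ℕ, 1 ≤ Y → 1 ≤ y → cn (X i y) Y ≤ C * Y / (y : ℝ) ^ (1 / 20 : ℝ) := by
    intro i Y y hY hy
    obtain ⟨k1, k2, k3, k4⟩ := hcount Y y (by exact_mod_cast hY) (by exact_mod_cast hy)
    have hfin : ∀ S : Set ℕ, (∀ n ∈ S, (n : ℝ) ≤ Y) → S.Finite := by
      intro S hS
      refine (Set.finite_Iic Y).subset fun n hn => ?_
      have := hS n hn
      exact_mod_cast this
    fin_cases i
    · change cn (Stray y) Y ≤ _
      refine cn_le k1 ?_ (hfin _ fun n hn => hn.2.1)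
      rintro n h1 h2 h3
      refine ⟨h1, by exact_mod_cast h2, ?_⟩
      rintro ⟨m, k, hm1, hm2, hm3⟩
      exact h3 ⟨m, k, hm1, by exact_mod_cast hm2, hm3⟩
    · change cn (Above y) Y ≤ _
      refine cn_le k2 ?_ (hfin _ fun n hn => hn.2.1)
      rintro n h1 h2 ⟨h3, h4⟩
      exact ⟨h3, by exact_mod_cast h2, h4⟩
    · change cn (Strange y) Y ≤ _
      refine cn_le k3 ?_ (hfin _ fun n hn => hn.2.1)
      rintro n h1 h2 ⟨h3, z, hz1, hz2, hz3, w, hw1, hw2, hw3⟩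
      exact ⟨h3, by exact_mod_cast h2, z, hz1, hz2, hz3, w, hw1, hw2, fun m hm1 hm2 => hw3 m hm1 (by exact_mod_cast hm2)⟩
    · change cn (fun x => (∀ m : ℕ, 1 ≤ m → m ≤ y → ∃ k : ℕ, T^[k] m = 1) ∧ Other a x) Y ≤ _
      by_cases hT : ∀ m : ℕ, 1 ≤ m → m ≤ y → ∃ k : ℕ, T^[k] m = 1
      · refine cn_le (k4 fun m hm1 hm2 => hT m hm1 (by exact_mod_cast hm2)) ?_ (hfin _ fun n hn => hn.2.1)
        rintro n h1 h2 ⟨-, h3, h4⟩
        exact ⟨h3, by exact_mod_cast h2, h4⟩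
      · have h0 : cn (fun x => (∀ m : ℕ, 1 ≤ m → m ≤ y → ∃ k : ℕ, T^[k] m = 1) ∧ Other a x) Y ≤ 0 := by
          refine cn_le (S := ∅) (by simp) ?_ Set.finite_empty
          rintro n h1 h2 ⟨h3, -⟩
          exact hT h3
        refine h0.trans (by positivity)
  obtain ⟨E, hE, h⟩ := tail_nat q hq X
  refine ⟨E, hE, fun α hα hαE => ?_⟩
  have g := fun i => h α hα hαE i (1 / 20) C (by norm_num) hC.le (hb i)
  choose η hη gη using g
  refine ⟨5 * C + 1, min (min (η 0) (η 1)) (min (η 2) (η 3)), by positivity,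
    lt_min (lt_min (hη 0) (hη 1)) (lt_min (hη 2) (hη 3)), ?_⟩
  filter_upwards [gη 0, gη 1, gη 2, gη 3, eventually_ge_atTop 1] with N g0 g1 g2 g3 hN1
  intro P hdeg hlead hco y hy1 hyN
  have hN1r : (1 : ℝ) ≤ N := by exact_mod_cast hN1
  have hmono : ∀ {a b : ℝ}, a ≤ b → (N : ℝ) ^ a ≤ (N : ℝ) ^ b := fun hab => Real.rpow_le_rpow_of_exponent_le hN1r hab
  have b0 : min (min (η 0) (η 1)) (min (η 2) (η 3)) ≤ η 0 := (min_le_left _ _).trans (min_le_left _ _)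
  have b1 : min (min (η 0) (η 1)) (min (η 2) (η 3)) ≤ η 1 := (min_le_left _ _).trans (min_le_right _ _)
  have b2 : min (min (η 0) (η 1)) (min (η 2) (η 3)) ≤ η 2 := (min_le_right _ _).trans (min_le_left _ _)
  have b3 : min (min (η 0) (η 1)) (min (η 2) (η 3)) ≤ η 3 := (min_le_right _ _).trans (min_le_right _ _)
  refine ⟨?_, ?_, ?_, fun hT => ?_⟩
  · rw [count_eq]
    exact g0 P hdeg hlead (fun j => (hco j).trans (hmono b0)) y hy1 (hyN.trans (hmono b0))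
  · rw [count_eq]
    exact g1 P hdeg hlead (fun j => (hco j).trans (hmono b1)) y hy1 (hyN.trans (hmono b1))
  · rw [count_eq]
    exact g2 P hdeg hlead (fun j => (hco j).trans (hmono b2)) y hy1 (hyN.trans (hmono b2))
  · rw [count_eq]
    have k := g3 P hdeg hlead (fun j => (hco j).trans (hmono b3)) y hy1 (hyN.trans (hmono b3))
    refine le_trans (cnP_mono (fun n hn => ?_) α P N) k
    exact ⟨hT, hn⟩

end Pool.Agent.Results.MP_a247fa_nt.CriticalOrbitsAlongRealMultiples
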