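import Pool.Agent.Q138.PS.XT
import Pool.Agent.Results.MP_a247fa_nt.AlmostBoundedCriticalOrbits

/-!
# The critical orbits of Chamberland's map at all integers near the powers of almost every real number

For almost every real number `α > 1` (one null set) the following holds for all real algebraic `c > 0`, all integers `j`, all real
`D`, `κ ≥ 0` and `A > 20 (κ + 1)`, and all large `n`. For EVERY integer `x ≥ 1` with `|x - c n ^ j α ^ n| ≤ D n ^ κ` and every
`y ≥ (log x) ^ A`: some iterate of `f` carries the interval `J x` into some `J m`, `m ≤ y`. If `x` is odd, then the orbit of the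
critical point of `f` next to `x` comes to `y + 5 / 18` or below, and every attracting cycle which attracts it attracts also a
point of some `J m`, `m ≤ y`; and if the Collatz orbits of all `m ≤ y` contain `1`, then the critical point is attracted by one of
the two known attracting cycles `{1, 2}`, `{a, f a}` or falls on a point of period dividing two in `[1.02, 1.05]`.
-/

set_option autoImplicit false

namespace Pool.Agent.Results.MP_a247fa_nt.OrbitsNearPowers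

open Finset Filter Topology MeasureTheory
open Pool.Agent.Q138.PS
open Pool.Agent.H934R2.Ch (f T AttrPt Attracts)
open Pool.Agent.Results.MP_a247fa_nt.AlmostBoundedCriticalOrbits (J)

/-- some iterate of `f` carries the interval `J x = [x, x + 5 / (6 (2 x + 1))]` into some `J m`, `m ≤ y` -/
def Comes (y x : ℕ) : Prop := ∃ m k : ℕ, 1 ≤ m ∧ m ≤ y ∧ ∀ z ∈ J x, f^[k] z ∈ J m

/-- `z` is a critical point of `f` in `(x, x + 1 / 2)` -/
def Crit (x : ℕ) (z : ℝ) : Prop := (x : ℝ) < z ∧ z < x + 1 / 2 ∧ deriv f z = 0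

/-- the orbit of `z` comes to `y + 5 / 18` or below -/
def Below (y : ℕ) (z : ℝ) : Prop := ∃ k : ℕ, f^[k] z ≤ (y : ℝ) + 5 / 18

/-- every attracting cycle of `f` which attracts `z` attracts a point of some `J m`, `m ≤ y` -/
def Tame (y : ℕ) (z : ℝ) : Prop := ∀ w : ℝ, AttrPt w → Attracts w z → ∃ m : ℕ, 1 ≤ m ∧ m ≤ y ∧ ∃ v ∈ J m, Attracts w v

/-- `z` is attracted by `{1, 2}` or by the cycle of `a`, or falls on a point of period dividing two of `f` in `[1.02, 1.05]` -/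
def Known (a z : ℝ) : Prop :=
  Attracts 1 z ∨ Attracts a z ∨ ∃ K : ℕ, f^[K] z ∈ Set.Icc (1.02 : ℝ) 1.05 ∧ f^[K + 2] z = f^[K] z

theorem cn_le {Z : ℕ → Prop} {S : Set ℕ} {Y : ℕ} {B : ℝ} (h : (S.ncard : ℝ) ≤ B)
    (hS : ∀ n, 1 ≤ n → n ≤ Y → Z n → n ∈ S) (hfin : S.Finite) : cn Z Y ≤ B := by
  classical
  refine le_trans ?_ h
  have e : cn Z Y = (({n : ℕ | 1 ≤ n ∧ n ≤ Y ∧ Z n}.ncard : ℕ) : ℝ) := by
    unfold cn
    rw [← Set.ncard_coe_finset]
    congr 2
    ext n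
    simp [and_assoc]
  rw [e]
  refine Nat.cast_le.2 (Set.ncard_le_ncard ?_ hfin)
  rintro n ⟨h1, h2, h3⟩
  exact hS n h1 h2 h3

/-- the exceptional properties -/
def Bad (a : ℝ) (i : Fin 4) (y x : ℕ) : Prop :=
  if i = 0 then ¬ Comes y x else x % 2 = 1 ∧
    (if i = 1 then ∃ z, Crit x z ∧ ¬ Below y z else if i = 2 then ∃ z, Crit x z ∧ ¬ Tame y z else
      (∀ m : ℕ, 1 ≤ m → m ≤ y → ∃ k : ℕ, T^[k] m = 1) ∧ ∃ z, Crit x z ∧ ¬ Known a z)

theorem bad_mono (a : ℝ) (i : Fin 4) (y y' x : ℕ) (h : y ≤ y') (hb : Bad a i y' x) : Bad a i y x := by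
  unfold Bad at hb ⊢
  fin_cases i
  · simp only [Fin.zero_eta, if_true] at hb ⊢
    rintro ⟨m, k, h1, h2, h3⟩
    exact hb ⟨m, k, h1, h2.trans h, h3⟩
  · simp only [Fin.mk_one, Fin.isValue, one_ne_zero, if_false, if_true] at hb ⊢
    refine ⟨hb.1, ?_⟩
    obtain ⟨z, hz, hz2⟩ := hb.2
    refine ⟨z, hz, ?_⟩
    rintro ⟨k, hk⟩
    exact hz2 ⟨k, hk.trans (by have : (y : ℝ) ≤ y' := by exact_mod_cast h
                               linarith)⟩
  · have e1 : ¬ ((⟨2, by norm_num⟩ : Fin 4) = 0) := by decide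
    have e2 : ¬ ((⟨2, by norm_num⟩ : Fin 4) = 1) := by decide
    have e3 : ((⟨2, by norm_num⟩ : Fin 4) = 2) := rfl
    rw [if_neg e1, if_neg e2, if_pos e3] at hb ⊢
    refine ⟨hb.1, ?_⟩
    obtain ⟨z, hz, hz2⟩ := hb.2
    refine ⟨z, hz, fun h1 => hz2 fun w hw hwz => ?_⟩
    obtain ⟨m, hm1, hm2, hm3⟩ := h1 w hw hwz
    exact ⟨m, hm1, hm2.trans h, hm3⟩
  · have e1 : ¬ ((⟨3, by norm_num⟩ : Fin 4) = 0) := by decide
    have e2 : ¬ ((⟨3, by norm_num⟩ : Fin 4) = 1) := by decide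
    have e3 : ¬ ((⟨3, by norm_num⟩ : Fin 4) = 2) := by decide
    rw [if_neg e1, if_neg e2, if_neg e3] at hb ⊢
    exact ⟨hb.1, fun m h1 h2 => hb.2.1 m h1 (h2.trans h), hb.2.2⟩

/-- **Theorem.** -/
theorem result : ∃ a : ℝ, a ∈ Set.Icc (1.19 : ℝ) 1.196 ∧ f (f a) = a ∧
    ∀ᵐ α : ℝ, 1 < α → ∀ c : ℝ, 0 < c → IsAlgebraic ℚ c → ∀ (j : ℤ) (D κ A : ℝ), 0 ≤ κ → 20 * (κ + 1) < A →
      ∀ᶠ n : ℕ in atTop, ∀ x y : ℕ, 1 ≤ x → ClosePow α c j D κ n x → (Real.log x) ^ A ≤ y →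
        Comes y x ∧ (x % 2 = 1 → ∀ z : ℝ, Crit x z → Below y z ∧ Tame y z ∧
          ((∀ m : ℕ, 1 ≤ m → m ≤ y → ∃ k : ℕ, T^[k] m = 1) → Known a z)) := by
  classical
  obtain ⟨a, ha, haa, -, -, -, ⟨C, hC, hcount⟩, -⟩ := Pool.Agent.Results.MP_a247fa_nt.AlmostBoundedCriticalOrbits.result
  refine ⟨a, ha, haa, ?_⟩
  have hb : ∀ i : Fin 4, ∀ Y y : ℕ, 1 ≤ Y → 1 ≤ y → cn (Bad a i y) Y ≤ C * Y / (y : ℝ) ^ (1 / 20 : ℝ) := by
    intro i Y y hY hy
    obtain ⟨k1, k2, k3, k4⟩ := hcount Y y (by exact_mod_cast hY) (by exact_mod_cast hy)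
    have hfin : ∀ S : Set ℕ, (∀ n ∈ S, (n : ℝ) ≤ Y) → S.Finite := by
      intro S hS
      refine (Set.finite_Iic Y).subset fun n hn => ?_
      have := hS n hn
      exact_mod_cast this
    fin_cases i
    · refine cn_le k1 ?_ (hfin _ fun n hn => hn.2.1)
      rintro n h1 h2 h3
      unfold Bad at h3
      simp only [Fin.zero_eta, if_true] at h3
      refine ⟨h1, by exact_mod_cast h2, ?_⟩
      rintro ⟨m, k, hm1, hm2, hm3⟩
      exact h3 ⟨m, k, hm1, by exact_mod_cast hm2, hm3⟩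
    · refine cn_le k2 ?_ (hfin _ fun n hn => hn.2.1)
      rintro n h1 h2 h3
      unfold Bad at h3
      simp only [Fin.mk_one, Fin.isValue, one_ne_zero, if_false, if_true] at h3
      obtain ⟨h3, z, ⟨hz1, hz2, hz3⟩, hz4⟩ := h3
      refine ⟨h3, by exact_mod_cast h2, z, hz1, hz2, hz3, fun k => ?_⟩
      by_contra h5
      push Not at h5
      exact hz4 ⟨k, h5⟩
    · refine cn_le k3 ?_ (hfin _ fun n hn => hn.2.1)
      rintro n h1 h2 h3
      unfold Bad at h3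
      have e1 : ¬ ((⟨2, by norm_num⟩ : Fin 4) = 0) := by decide
      have e2 : ¬ ((⟨2, by norm_num⟩ : Fin 4) = 1) := by decide
      have e3 : ((⟨2, by norm_num⟩ : Fin 4) = 2) := rfl
      rw [if_neg e1, if_neg e2, if_pos e3] at h3
      obtain ⟨h3, z, ⟨hz1, hz2, hz3⟩, hz4⟩ := h3
      unfold Tame at hz4
      push Not at hz4
      obtain ⟨w, hw1, hw2, hw3⟩ := hz4
      exact ⟨h3, by exact_mod_cast h2, z, hz1, hz2, hz3, w, hw1, hw2,
        fun m hm1 hm2 v hv => hw3 m hm1 (by exact_mod_cast hm2) v hv⟩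
    · by_cases hT : ∀ m : ℕ, 1 ≤ m → m ≤ y → ∃ k : ℕ, T^[k] m = 1
      · refine cn_le (k4 fun m hm1 hm2 => hT m hm1 (by exact_mod_cast hm2)) ?_ (hfin _ fun n hn => hn.2.1)
        rintro n h1 h2 h3
        unfold Bad at h3
        have e1 : ¬ ((⟨3, by norm_num⟩ : Fin 4) = 0) := by decide
        have e2 : ¬ ((⟨3, by norm_num⟩ : Fin 4) = 1) := by decide
        have e3 : ¬ ((⟨3, by norm_num⟩ : Fin 4) = 2) := by decide
        rw [if_neg e1, if_neg e2, if_neg e3] at h3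
        obtain ⟨h3, -, z, ⟨hz1, hz2, hz3⟩, hz4⟩ := h3
        exact ⟨h3, by exact_mod_cast h2, z, hz1, hz2, hz3, hz4⟩
      · have h0 : cn (Bad a ⟨3, by norm_num⟩ y) Y ≤ 0 := by
          refine cn_le (S := ∅) (by simp) ?_ Set.finite_empty
          rintro n h1 h2 h3
          unfold Bad at h3
          have e1 : ¬ ((⟨3, by norm_num⟩ : Fin 4) = 0) := by decide
          have e2 : ¬ ((⟨3, by norm_num⟩ : Fin 4) = 1) := by decide
          have e3 : ¬ ((⟨3, by norm_num⟩ : Fin 4) = 2) := by decide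
          rw [if_neg e1, if_neg e2, if_neg e3] at h3
          exact hT h3.2.1
        refine h0.trans (by positivity)
  filter_upwards [pow_ae_tail (ι := Fin 4) (Bad a) (bad_mono a) (1 / 20) (by norm_num) (fun i => ⟨C, hb i⟩)] with α h1 hα c hc hca j D κ A hκ hA
  have g := fun i : Fin 4 => h1 hα i c hc hca j D κ A hκ (by linarith)
  filter_upwards [g 0, g 1, g 2, g 3] with n g0 g1 g2 g3 x y hx hcl hy
  have b0 := g0 x y hx hcl hy
  have b1 := g1 x y hx hcl hy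
  have b2 := g2 x y hx hcl hy
  have b3 := g3 x y hx hcl hy
  unfold Bad at b0 b1 b2 b3
  rw [if_pos rfl] at b0
  rw [if_neg (by decide), if_pos rfl] at b1
  rw [if_neg (by decide), if_neg (by decide), if_pos rfl] at b2
  rw [if_neg (by decide), if_neg (by decide), if_neg (by decide)] at b3
  refine ⟨not_not.1 b0, fun hx2 z hz => ⟨?_, ?_, fun hT => ?_⟩⟩
  · by_contra h5
    exact b1 ⟨hx2, z, hz, h5⟩
  · by_contra h5
    exact b2 ⟨hx2, z, hz, h5⟩
  · by_contra h5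
    exact b3 ⟨hx2, hT, z, hz, h5⟩

end Pool.Agent.Results.MP_a247fa_nt.OrbitsNearPowers
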