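import Pool.Agent.Results.MP_a247fa_nt.ExceptionalCycles
import Pool.Agent.Q131.ChCyc

/-!
Chamberland's real extension `f` of the `3x+1` map: the two known attracting cycles are the only ones of
period at most `6` in `(0,∞)`, and a further one of period less than `1539` contracts only at points which
undershoot an even integer.
-/

set_option autoImplicit false

namespace Pool.Agent.Results.MP_a247fa_nt.SmallPeriods

/-- Chamberland's map. -/
noncomputable def f (x : ℝ) : ℝ := x + 1 / 4 - (2 * x + 1) / 4 * Real.cos (Real.pi * x)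

/-- The `3x+1` map. -/
def T (n : ℕ) : ℕ := if n % 2 = 0 then n / 2 else (3 * n + 1) / 2

/-- `x` is a point of an attracting cycle of `f` contained in `(0,∞)`. -/
def AttractingPoint (x : ℝ) : Prop :=
  0 < x ∧ 0 < Function.minimalPeriod f x ∧ |deriv (f^[Function.minimalPeriod f x]) x| < 1

/-- `y` is just below an even integer `n ≥ 30`; for some `j` with `5 ≤ j`, `j + 2 ≤ p` the `T`-orbit of
`n` exceeds `2 n` for the first time at time `j`, and up to this time the `f`-orbit of `y` stays just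
below it. -/
def Undershoots (p : ℕ) (y : ℝ) : Prop :=
  ∃ n j : ℕ, n % 2 = 0 ∧ 30 ≤ n ∧ y < n ∧ (n : ℝ) - y < 1 / (4 * n + 2) ∧
    5 ≤ j ∧ j + 2 ≤ p ∧ 2 * n < T^[j] n ∧
    (∀ i : ℕ, i < j → T^[i] n ≤ 2 * n ∧ f^[i] y < T^[i] n ∧
      (T^[i] n : ℝ) - f^[i] y < 1 / (2 * (T^[i] n : ℝ) + 1)) ∧
    f^[j] y < T^[j] n ∧ (T^[j] n : ℝ) - 1 / 4 < f^[j] y

theorem f_ge {x : ℝ} (h : 0 ≤ x) : x / 2 ≤ f x := by
  unfold f
  have hc := Real.cos_le_one (Real.pi * x)
  have h2 : 0 ≤ (2 * x + 1) / 4 := by positivity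
  nlinarith

/-- before time `5` the `T`-orbit of an even `n ≥ 30` is at most `2 n` -/
theorem early {n j : ℕ} (hn2 : n % 2 = 0) (h30 : 30 ≤ n) (hj : 2 * n < T^[j] n) : 5 ≤ j := by
  have hT : ∀ m, 2 * T m ≤ 3 * m + 1 := by
    intro m
    unfold T
    split_ifs <;> omega
  have h1 : 2 * T n = n := by unfold T; rw [if_pos hn2]; omega
  by_contra hlt
  push Not at hlt
  have e1 : T^[1] n = T n := rfl
  have e2 : T^[2] n = T (T n) := rfl
  have e3 : T^[3] n = T (T (T n)) := rfl
  have e4 : T^[4] n = T (T (T (T n))) := rfl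
  have b2 := hT (T n)
  have b3 := hT (T (T n))
  have b4 := hT (T (T (T n)))
  interval_cases j
  · simp only [Function.iterate_zero, id] at hj; omega
  · rw [e1] at hj; omega
  · rw [e2] at hj; omega
  · rw [e3] at hj; omega
  · rw [e4] at hj; omega

theorem refine_undershoots {p : ℕ} {y : ℝ} (hy : f^[p] y = y)
    (h : ExceptionalCycles.Undershoots p y) : Undershoots p y := by
  obtain ⟨n, j, h1, h2, h3, h4, h5, h6, h7, h8, h9⟩ := h
  have hj5 : 5 ≤ j := early h1 h2 h6
  refine ⟨n, j, h1, h2, h3, h4, hj5, ?_, h6, h7, h8, h9⟩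
  by_contra hlt
  have hp : p = j + 1 := by omega
  rw [hp, Function.iterate_succ_apply'] at hy
  have h6' : (2 * (n : ℝ)) + 1 ≤ ((T^[j] n : ℕ) : ℝ) := by exact_mod_cast h6
  have h9' : ((T^[j] n : ℕ) : ℝ) - 1 / 4 < f^[j] y := h9
  have hn : (30 : ℝ) ≤ n := by exact_mod_cast h2
  have h10 := f_ge (x := f^[j] y) (by linarith)
  rw [hy] at h10
  linarith

/-- **Main theorem.** Let `a` be the point `1.1925...` of the second known attracting cycle. (1) The two
known cycles `{1, 2}`, `{a, f a}` are the only attracting cycles in `(0,∞)` of period at most `6`. (2) Every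
other attracting cycle in `(0,∞)` of period less than `1539` has a point `y` with `|f' y| < 1`, and every
such point undershoots. (3) The cycles of the `3x+1` map other than `{1, 2}` have period at least `1539`
(so the attracting cycles of `f` which they give have period at least `1539`). -/
theorem result :
    (∃ a : ℝ, 1.183 ≤ a ∧ a ≤ 1.2 ∧ f (f a) = a ∧
      (∀ b : ℝ, 1.183 ≤ b → b ≤ 1.2 → f (f b) = b → b = a) ∧
      (∀ x : ℝ, AttractingPoint x → Function.minimalPeriod f x ≤ 6 →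
        x = 1 ∨ x = 2 ∨ x = a ∨ x = f a) ∧
      (∀ x : ℝ, AttractingPoint x → Function.minimalPeriod f x < 1539 →
        (x = 1 ∨ x = 2 ∨ x = a ∨ x = f a) ∨
        ((∃ k : ℕ, |deriv f (f^[k] x)| < 1) ∧
          ∀ k : ℕ, |deriv f (f^[k] x)| < 1 → Undershoots (Function.minimalPeriod f x) (f^[k] x)))) ∧
    (∀ n p : ℕ, 3 ≤ n → 0 < p → p < 1539 → T^[p] n ≠ n) := by
  have hT : ∀ n p : ℕ, 3 ≤ n → 0 < p → p < 1539 → T^[p] n ≠ n := fun n p h1 h2 h3 =>
    Pool.Agent.Q131.ChCyc.no_cycle h1 h2 h3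
  refine ⟨?_, hT⟩
  obtain ⟨a, h1, h2, h3, h4, -, h6⟩ := ExceptionalCycles.result
  have main : ∀ x : ℝ, AttractingPoint x → Function.minimalPeriod f x < 1539 →
        (x = 1 ∨ x = 2 ∨ x = a ∨ x = f a) ∨
        ((∃ k : ℕ, |deriv f (f^[k] x)| < 1) ∧
          ∀ k : ℕ, |deriv f (f^[k] x)| < 1 →
            Undershoots (Function.minimalPeriod f x) (f^[k] x)) := by
    intro x hx hp
    rcases h6 x hx with h | ⟨n, hn, hTn, -⟩ | ⟨hk, h⟩
    · exact Or.inl h
    · exact absurd hTn (hT n _ hn hx.2.1 hp)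
    · refine Or.inr ⟨hk, fun k hk' => refine_undershoots ?_ (h k hk')⟩
      rw [← Function.iterate_add_apply, Nat.add_comm, Function.iterate_add_apply,
        Function.iterate_minimalPeriod]
  refine ⟨a, h1, h2, h3, h4, ?_, main⟩
  intro x hx hp
  rcases main x hx (by omega) with h | ⟨⟨k, hk⟩, h⟩
  · exact h
  · exfalso
    obtain ⟨n, j, -, -, -, -, h5, h7, -⟩ := h k hk
    omega

end Pool.Agent.Results.MP_a247fa_nt.SmallPeriods
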